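import Pool.Agent.J6H48.RPR.Phi2
import Pool.Agent.J6H48.RPR.Phi3
import Pool.Agent.Results.MP_94ebd3_co.DiffProd

/-!
# MP_94ebd3_co: Ramsey partition regularity of `φ₁`, `φ₂`, `φ₃`

`φ₁ : -x + y = z, x y = t` and `φ₂ : -x + y = z, y = t x` are not Ramsey partition regular in
`(x, y) ∣ z, t`; `φ₃ : x + y = z, y = t x` is, even with `H` and all sums `h₁ + h₂` and quotients
`h₂ / h₁` in one and the same colour class. (The part about `φ₁` is the starting result `DiffProd`.)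
-/

set_option autoImplicit false

namespace Pool.Agent.Results.MP_94ebd3_co.AllThree

/-- `-x + y = z` and `x y = t` -/
def phi1 (x y z t : ℕ+) : Prop := -(x : ℤ) + y = z ∧ x * y = t

/-- `-x + y = z` and `y = t x` -/
def phi2 (x y z t : ℕ+) : Prop := -(x : ℤ) + y = z ∧ y = t * x

/-- `x + y = z` and `y = t x` -/
def phi3 (x y z t : ℕ+) : Prop := x + y = z ∧ y = t * x

/-- `φ` is Ramsey partition regular in `(x, y) ∣ z, t`: for every colouring of the positive integers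
with finitely many colours there are a colour `i`, an infinite set `H` of numbers of colour `i` and a
colour `j` such that for all `h₁ < h₂` in `H` there are `z`, `t` of colour `j` with
`φ(h₁, h₂, z, t)`. -/
def RamseyPR (φ : ℕ+ → ℕ+ → ℕ+ → ℕ+ → Prop) : Prop :=
  ∀ (r : ℕ) (c : ℕ+ → Fin r), ∃ (i : Fin r) (H : Set ℕ+) (j : Fin r), H.Infinite ∧
    (∀ h ∈ H, c h = i) ∧
    ∀ h₁ ∈ H, ∀ h₂ ∈ H, h₁ < h₂ → ∃ z t : ℕ+, c z = j ∧ c t = j ∧ φ h₁ h₂ z t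

/-- The same with `i = j`: the set `H` and the numbers `z`, `t` have one and the same colour. -/
def RamseyPROneColour (φ : ℕ+ → ℕ+ → ℕ+ → ℕ+ → Prop) : Prop :=
  ∀ (r : ℕ) (c : ℕ+ → Fin r), ∃ (j : Fin r) (H : Set ℕ+), H.Infinite ∧
    (∀ h ∈ H, c h = j) ∧
    ∀ h₁ ∈ H, ∀ h₂ ∈ H, h₁ < h₂ → ∃ z t : ℕ+, c z = j ∧ c t = j ∧ φ h₁ h₂ z t

lemma not_phi1 : ¬ RamseyPR phi1 := by
  intro h
  obtain ⟨r, c, hc⟩ := Pool.Agent.Results.MP_94ebd3_co.DiffProd.result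
  obtain ⟨-, H, j, hinf, -, hH⟩ := h r (fun n => c n)
  obtain ⟨a, ha, b, hb, hab, hno⟩ := hc ((fun n : ℕ+ => (n : ℕ)) '' H)
    (hinf.image PNat.coe_injective.injOn) (by rintro _ ⟨n, -, rfl⟩; exact n.pos) j
  obtain ⟨a, haH, rfl⟩ := ha
  obtain ⟨b, hbH, rfl⟩ := hb
  obtain ⟨z, t, hz, ht, h1, h2⟩ := hH a haH b hbH (by exact_mod_cast hab)
  refine hno ⟨z, t, hz, ht, ?_, ?_⟩
  · have h3 : (a : ℕ) < b := hab
    zify [h3.le]
    linarith
  · rw [← h2]; rfl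

lemma not_phi2 : ¬ RamseyPR phi2 := by
  intro h
  classical
  let e := Fintype.equivFin (Fin 2 × Fin 4 × Bool × Fin 4)
  obtain ⟨-, H, j, hinf, -, hH⟩ := h _ (fun n => e (Pool.Agent.J6H48.RPR.col n))
  refine Pool.Agent.J6H48.RPR.no_bad ((fun n : ℕ+ => (n : ℕ)) '' H)
    ⟨hinf.image PNat.coe_injective.injOn, ?_, ?_, ?_⟩
  · rintro _ ⟨n, -, rfl⟩
    exact n.pos
  · rintro _ ⟨a, ha, rfl⟩ _ ⟨b, hb, rfl⟩ hab
    obtain ⟨z, t, -, -, -, h2⟩ := hH a ha b hb (by exact_mod_cast hab)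
    refine ⟨t, ?_⟩
    show (b : ℕ) = a * t
    rw [h2, PNat.mul_coe, mul_comm]
  · rintro _ ⟨a, ha, rfl⟩ _ ⟨b, hb, rfl⟩ hab
    obtain ⟨z, t, hz, ht, h1, h2⟩ := hH a ha b hb (by exact_mod_cast hab)
    have e1 : (b : ℕ) - a = z := by
      have h3 : (a : ℕ) < b := hab
      zify [h3.le]
      linarith
    have e2 : (b : ℕ) / a = t := by
      rw [h2, PNat.mul_coe]
      exact Nat.mul_div_cancel _ a.pos
    show Pool.Agent.J6H48.RPR.col ((b : ℕ) - a) = Pool.Agent.J6H48.RPR.col ((b : ℕ) / a)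
    rw [e1, e2]
    exact e.injective (hz.trans ht.symm)

lemma one_phi3 : RamseyPROneColour phi3 := by
  intro r c
  obtain ⟨j, f, hf, hc, hp⟩ := Pool.Agent.J6H48.RPR.phi3 r c
  refine ⟨j, Set.range f, Set.infinite_range_of_injective hf.injective, ?_, ?_⟩
  · rintro _ ⟨n, rfl⟩
    exact hc n
  · rintro _ ⟨m, rfl⟩ _ ⟨n, rfl⟩ hmn
    obtain ⟨t, h1, h2, h3⟩ := hp m n (hf.lt_iff_lt.mp hmn)
    exact ⟨f m + f n, t, h3, h2, rfl, h1⟩

/-- **Complete answer to Q1.** `φ₁` and `φ₂` are not Ramsey partition regular in `(x, y) ∣ z, t`, and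
`φ₃` is, even with one colour for `H`, `z` and `t`. -/
theorem result : ¬ RamseyPR phi1 ∧ ¬ RamseyPR phi2 ∧ RamseyPR phi3 ∧ RamseyPROneColour phi3 :=
  ⟨not_phi1, not_phi2, fun r c => by
    obtain ⟨j, H, h1, h2, h3⟩ := one_phi3 r c
    exact ⟨j, H, j, h1, h2, h3⟩, one_phi3⟩

end Pool.Agent.Results.MP_94ebd3_co.AllThree
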